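import Pool.Agent.Helper84.MXQ.Near

/-!
# The group algebra: rank reduction
-/

set_option autoImplicit false

namespace Pool.Agent.Helper84.MXQ

open Pool.Agent.Helper75.MX

/-- the real group algebra -/
abbrev RG (G : Type) [Group G] : Type := MonoidAlgebra ℝ G

section basics

variable {G : Type} [Group G]

/-- group elements in the group algebra -/
noncomputable abbrev sg (g : G) : RG G := MonoidAlgebra.single g 1

/-- a lazy element -/
noncomputable def lzE (a : G × ℝ) : RG G := (1 - a.2) • (1 : RG G) + a.2 • sg a.1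

/-- product of a list of lazy elements -/
noncomputable def El (l : List (G × ℝ)) : RG G := (l.map lzE).prod

theorem El_append (l l' : List (G × ℝ)) : El (l ++ l') = El l * El l' := by
  unfold El
  rw [List.map_append, List.prod_append]

theorem El_cons (a : G × ℝ) (l : List (G × ℝ)) : El (a :: l) = lzE a * El l := by
  unfold El
  rw [List.map_cons, List.prod_cons]

theorem El_coeff (l : List (G × ℝ)) : ∀ x : G, (El l).coeff x = app l (dlt G) x := by
  classical
  induction l with
  | nil =>
    intro x
    show (1 : RG G).coeff x = dlt G x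
    rw [MonoidAlgebra.one_def, MonoidAlgebra.coeff_single, Finsupp.single_apply]
    unfold dlt
    by_cases h : x = 1
    · rw [if_pos h, if_pos h.symm]
    · rw [if_neg h, if_neg (fun h' => h h'.symm)]
  | cons a l ih =>
    intro x
    rw [El_cons, app_cons]
    show (lzE a * El l).coeff x = (1 - a.2) * app l (dlt G) x + a.2 * app l (dlt G) (a.1⁻¹ * x)
    rw [← ih, ← ih]
    unfold lzE
    rw [add_mul, smul_mul_assoc, smul_mul_assoc, one_mul]
    simp

/-- the augmentation -/
noncomputable def au (G : Type) [Group G] : RG G →ₐ[ℝ] ℝ := MonoidAlgebra.lift ℝ ℝ G 1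

theorem au_sg (g : G) : au G (sg g) = 1 := by
  unfold au
  rw [MonoidAlgebra.lift_single]
  simp

theorem au_lzE (a : G × ℝ) : au G (lzE a) = 1 := by
  unfold lzE
  rw [map_add, map_smul, map_smul, map_one, au_sg]
  simp

theorem au_El (l : List (G × ℝ)) : au G (El l) = 1 := by
  induction l with
  | nil => exact map_one _
  | cons a l ih => rw [El_cons, map_mul, au_lzE, ih, one_mul]

variable [Fintype G]

theorem au_eq (x : RG G) : au G x = ∑ g, x.coeff g := by
  unfold au
  rw [MonoidAlgebra.lift_apply, Finsupp.sum_fintype]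
  · simp
  · intro g; simp

/-- the uniform element -/
noncomputable def Un (G : Type) [Group G] [Fintype G] : RG G :=
  ∑ g : G, (1 / (Nat.card G : ℝ)) • sg g

theorem Un_coeff (x : G) : (Un G).coeff x = 1 / (Nat.card G : ℝ) := by
  classical
  unfold Un
  rw [MonoidAlgebra.coeff_sum, Finsupp.finset_sum_apply, Finset.sum_eq_single x]
  · simp
  · intro b _ hb
    simp [Finsupp.single_apply, hb]
  · intro h; exact absurd (Finset.mem_univ _) h

theorem Un_mul_sg (g : G) : Un G * sg g = Un G := by
  unfold Un
  rw [Finset.sum_mul, ← Equiv.sum_comp (Equiv.mulRight g) (fun h => (1 / (Nat.card G : ℝ)) • sg h)]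
  apply Finset.sum_congr rfl
  intro h _
  rw [smul_mul_assoc, MonoidAlgebra.single_mul_single, one_mul]
  rfl

theorem sg_mul_Un (g : G) : sg g * Un G = Un G := by
  unfold Un
  rw [Finset.mul_sum, ← Equiv.sum_comp (Equiv.mulLeft g) (fun h => (1 / (Nat.card G : ℝ)) • sg h)]
  apply Finset.sum_congr rfl
  intro h _
  rw [mul_smul_comm, MonoidAlgebra.single_mul_single, one_mul]
  rfl

theorem Un_mul (x : RG G) : Un G * x = au G x • Un G := by
  induction x using MonoidAlgebra.induction_linear with
  | zero => simp
  | add x y hx hy => rw [mul_add, hx, hy, map_add, add_smul]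
  | single g r =>
    have e : (MonoidAlgebra.single g r : RG G) = r • sg g := by
      rw [MonoidAlgebra.smul_single]; simp
    rw [e, mul_smul_comm, Un_mul_sg, map_smul, au_sg]
    simp

theorem mul_Un (x : RG G) : x * Un G = au G x • Un G := by
  induction x using MonoidAlgebra.induction_linear with
  | zero => simp
  | add x y hx hy => rw [add_mul, hx, hy, map_add, add_smul]
  | single g r =>
    have e : (MonoidAlgebra.single g r : RG G) = r • sg g := by
      rw [MonoidAlgebra.smul_single]; simp
    rw [e, smul_mul_assoc, sg_mul_Un, map_smul, au_sg]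
    simp

theorem au_Un : au G (Un G) = 1 := by
  rw [au_eq]
  simp only [Un_coeff]
  rw [Finset.sum_const, Finset.card_univ, ← Nat.card_eq_fintype_card, nsmul_eq_mul]
  have : (Nat.card G : ℝ) ≠ 0 := by exact_mod_cast Nat.card_pos.ne'
  field_simp

/-- **Elements near the identity**, in the group algebra -/
theorem nearE : ∃ κ η : ℝ, 0 < κ ∧ κ < 1 ∧ 0 < η ∧ ∀ y : RG G, au G y = 0 →
    (∀ g, |y.coeff g| ≤ η) → ∃ l : List (G × ℝ), Ok l ∧
      El l = κ • Un G + (1 - κ) • (1 + y) := by
  classical
  obtain ⟨δ, hδ0, hδc, hnear⟩ := near (G := G)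
  have hcard : 0 < (Nat.card G : ℝ) := by exact_mod_cast Nat.card_pos
  set κ : ℝ := δ * Nat.card G with hκ
  have hκ0 : 0 < κ := mul_pos hδ0 hcard
  refine ⟨κ, δ / 4, hκ0, hδc, by linarith, ?_⟩
  intro y hy hyc
  set T : RG G := κ • Un G + (1 - κ) • (1 + y) with hT
  have hTc : ∀ x : G, x ≠ 1 → T.coeff x = δ + (1 - κ) * y.coeff x := by
    intro x hx
    have h1 : (1 : RG G).coeff x = 0 := by
      rw [MonoidAlgebra.one_def, MonoidAlgebra.coeff_single, Finsupp.single_apply,
        if_neg (fun h' => hx h'.symm)]
    have h2 : κ * (1 / (Nat.card G : ℝ)) = δ := by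
      rw [hκ]; field_simp
    rw [hT, MonoidAlgebra.coeff_add, MonoidAlgebra.coeff_smul, MonoidAlgebra.coeff_smul,
      MonoidAlgebra.coeff_add]
    simp only [Finsupp.add_apply, Finsupp.smul_apply, smul_eq_mul, Un_coeff, h1, h2, zero_add]
  obtain ⟨p, hp, hpc⟩ := hnear (fun x => if x = 1 then δ else T.coeff x) (by
    intro x
    by_cases hx : x = 1
    · simp only [hx, if_true, sub_self, abs_zero]
      linarith
    · simp only [hx, if_false]
      rw [hTc x hx, add_sub_cancel_left, abs_mul]
      have h1 : |1 - κ| ≤ 1 := by rw [abs_le]; constructor <;> linarith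
      calc |1 - κ| * |y.coeff x| ≤ 1 * |y.coeff x| :=
            mul_le_mul_of_nonneg_right h1 (abs_nonneg _)
        _ ≤ δ / 4 := by rw [one_mul]; exact hyc x)
  refine ⟨(Finset.univ.toList : List G).map fun g => (g, p g), ?_, ?_⟩
  · intro a ha
    obtain ⟨g, -, rfl⟩ := List.mem_map.1 ha
    exact hp g
  · set l := (Finset.univ.toList : List G).map fun g => (g, p g) with hl
    have h1 : ∀ x, x ≠ 1 → (El l).coeff x = T.coeff x := by
      intro x hx
      rw [El_coeff]
      have := hpc x hx
      rw [if_neg hx] at this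
      exact this
    have h2 : au G (El l) = au G T := by
      rw [au_El, hT, map_add, map_smul, map_smul, map_add, au_Un, map_one, hy]
      simp
    rw [au_eq, au_eq, ← Finset.add_sum_erase _ _ (Finset.mem_univ (1 : G)),
      ← Finset.add_sum_erase _ _ (Finset.mem_univ (1 : G))] at h2
    have h3 : ∑ x ∈ Finset.univ.erase (1 : G), (El l).coeff x =
        ∑ x ∈ Finset.univ.erase (1 : G), T.coeff x :=
      Finset.sum_congr rfl (fun x hx => h1 x (Finset.ne_of_mem_erase hx))
    rw [h3] at h2
    have h4 : (El l).coeff 1 = T.coeff 1 := by linarith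
    apply MonoidAlgebra.coeff_injective
    ext x
    by_cases hx : x = 1
    · rw [hx]; exact h4
    · exact h1 x hx

end basics

end Pool.Agent.Helper84.MXQ
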