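import Pool.Agent.Helper84.MXQ.Char
import Pool.Agent.Helper84.MXP.AnyF

/-!
# Composition factors of bounded order
-/

set_option autoImplicit false

namespace Pool.Agent.Helper84.MXQ

open Pool.Agent.Helper75.MX Pool.Agent.Helper70.ML Pool.Agent.Helper75.ML Pool.Agent.Helper84.MXP
open scoped commutatorElement

/-- **Schur**: the order of a perfect group is bounded in terms of the order of its central quotient. -/
theorem card_bound {Q : Type} [Group Q] [Finite Q] (hp : commutator Q = ⊤) {M : ℕ}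
    (hM : Nat.card (Q ⧸ Subgroup.center Q) ≤ M) : Nat.card Q ≤ M ^ (M * (M * M) + 1) := by
  classical
  set Z := Subgroup.center Q with hZ
  have hcs : Nat.card (commutatorSet Q) ≤ Nat.card (Q ⧸ Z) * Nat.card (Q ⧸ Z) := by
    have hx : ∀ c : commutatorSet Q, ∃ p : Q × Q, ⁅p.1, p.2⁆ = (c : Q) := by
      rintro ⟨c, x, y, hxy⟩
      exact ⟨(x, y), hxy⟩
    choose r hr using hx
    have hinj : Function.Injective (fun c : commutatorSet Q =>
        ((QuotientGroup.mk' Z (r c).1, QuotientGroup.mk' Z (r c).2) : (Q ⧸ Z) × (Q ⧸ Z))) := by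
      intro c d hcd
      have h1 : QuotientGroup.mk' Z (r c).1 = QuotientGroup.mk' Z (r d).1 := congrArg Prod.fst hcd
      have h2 : QuotientGroup.mk' Z (r c).2 = QuotientGroup.mk' Z (r d).2 := congrArg Prod.snd hcd
      have h3 := cm_indep (QuotientGroup.mk' Z) (by rw [QuotientGroup.ker_mk']) h1 h2
      apply Subtype.ext
      rw [← hr c, ← hr d, commutatorElement_def, commutatorElement_def]
      exact h3
    have := Nat.card_le_card_of_injective _ hinj
    rwa [Nat.card_prod] at this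
  have h1 : Nat.card Q ∣ Z.index ^ (Z.index * Nat.card (commutatorSet Q) + 1) := by
    have := Subgroup.card_commutator_dvd_index_center_pow Q
    rw [hp, Subgroup.card_top] at this
    exact this
  have hi0 : 0 < Z.index := Nat.pos_of_ne_zero Subgroup.index_ne_zero_of_finite
  have hiM : Z.index ≤ M := hM
  calc Nat.card Q ≤ Z.index ^ (Z.index * Nat.card (commutatorSet Q) + 1) :=
        Nat.le_of_dvd (pow_pos hi0 _) h1
    _ ≤ Z.index ^ (M * (M * M) + 1) := by
        apply Nat.pow_le_pow_right hi0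
        apply Nat.succ_le_succ
        apply Nat.mul_le_mul hiM
        exact hcs.trans (Nat.mul_le_mul hM hM)
    _ ≤ M ^ (M * (M * M) + 1) := Nat.pow_le_pow_left hiM _

/-- a copy of `Fin n` without algebraic structure -/
def FF (n : ℕ) : Type := Fin n

noncomputable instance (n : ℕ) : Fintype (FF n) := inferInstanceAs (Fintype (Fin n))

noncomputable instance (n : ℕ) : DecidableEq (FF n) := inferInstanceAs (DecidableEq (Fin n))

/-- a mixing length for all groups of bounded order -/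
theorem exists_L (B : ℕ) : ∃ L : ℕ, ∀ (Q : Type) [Group Q] [Finite Q], Nat.card Q ≤ B →
    (∃ k, Mix Q k) → ∃ k, k ≤ L ∧ Mix Q k := by
  classical
  let P : (n : ℕ) → (FF n → FF n → FF n) → ℕ → Prop := fun n m k =>
    ∃ inst : Group (FF n), (∀ x y, inst.mul x y = m x y) ∧ @Mix (FF n) inst k
  let val : (n : ℕ) → (FF n → FF n → FF n) → ℕ := fun n m =>
    if h : ∃ k, P n m k then h.choose else 0
  refine ⟨∑ n ∈ Finset.range (B + 1), ∑ m : FF n → FF n → FF n, val n m, ?_⟩
  intro Q _ _ hB ⟨k, hk⟩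
  set n := Nat.card Q with hn
  let e : Q ≃ FF n := Finite.equivFin Q
  let inst : Group (FF n) := e.symm.group
  let e' : Q ≃* FF n := (e.symm.mulEquiv).symm
  have hk' : @Mix (FF n) inst k := (pISO Q (FF n) ⟨e'⟩).1 k hk
  have hex : ∃ k, P n (fun x y => inst.mul x y) k := ⟨k, inst, fun _ _ => rfl, hk'⟩
  have hval : val n (fun x y => inst.mul x y) = hex.choose := dif_pos hex
  have hle : hex.choose ≤ ∑ n ∈ Finset.range (B + 1), ∑ m : FF n → FF n → FF n, val n m := by
    rw [← hval]
    have h1 : val n (fun x y => inst.mul x y) ≤ ∑ m : FF n → FF n → FF n, val n m :=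
      Finset.single_le_sum (f := fun m => val n m) (fun _ _ => Nat.zero_le _)
        (Finset.mem_univ (fun x y => inst.mul x y))
    refine h1.trans ?_
    exact Finset.single_le_sum (f := fun n => ∑ m : FF n → FF n → FF n, val n m)
      (fun _ _ => Nat.zero_le _) (Finset.mem_range.2 (by omega))
  have hmix : @Mix (FF n) inst hex.choose := by
    obtain ⟨inst', hmul, hmix⟩ := hex.choose_spec
    generalize hex.choose = c at hmix
    have heq : inst' = inst := Group.ext (by
      funext x y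
      exact hmul x y)
    exact Eq.subst (motive := fun i : Group (FF n) => @Mix (FF n) i c) heq hmix
  exact ⟨hex.choose, hle, (pISO (FF n) Q ⟨e'.symm⟩).1 _ hmix⟩

/-- quasisimple groups over a simple group of even order have no nontrivial quotient of odd order -/
theorem ts_of_qo {Q : Type} [Group Q] [Finite Q] (hQ : QO Q)
    (hev : Even (Nat.card (Q ⧸ Subgroup.center Q))) : TS Q := by
  obtain ⟨hp, hsim, -⟩ := hQ
  intro N hN hodd
  by_cases hle : N ≤ Subgroup.center Q
  · exfalso
    have h1 : (Subgroup.center Q).index ∣ N.index := Subgroup.index_dvd_of_le hle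
    have h2 : Even N.index := by
      rw [even_iff_two_dvd] at hev ⊢
      exact hev.trans h1
    exact (Nat.not_even_iff_odd.2 hodd) h2
  · have h1 : (N.map (QuotientGroup.mk' (Subgroup.center Q))).Normal :=
      hN.map _ (QuotientGroup.mk'_surjective _)
    have h2 : N.map (QuotientGroup.mk' (Subgroup.center Q)) = ⊤ := by
      rcases h1.eq_bot_or_eq_top with h3 | h3
      · exfalso
        apply hle
        rw [Subgroup.map_eq_bot_iff, QuotientGroup.ker_mk'] at h3
        exact h3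
      · exact h3
    rw [eq_top_iff, ← hp, commutator_def, Subgroup.commutator_le]
    intro x _ y _
    have h3 : QuotientGroup.mk' (Subgroup.center Q) x ∈
        N.map (QuotientGroup.mk' (Subgroup.center Q)) := by rw [h2]; trivial
    obtain ⟨a, ha, hax⟩ := h3
    have h4 : a⁻¹ * x ∈ Subgroup.center Q := by
      rw [← QuotientGroup.ker_mk' (Subgroup.center Q), MonoidHom.mem_ker, map_mul, map_inv, hax,
        inv_mul_cancel]
    obtain ⟨z, hz⟩ : ∃ z, z = a⁻¹ * x := ⟨_, rfl⟩
    rw [← hz] at h4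
    have hx : x = a * z := by rw [hz]; group
    have hzc := Subgroup.mem_center_iff.1 h4
    have h5 : ⁅x, y⁆ = a * (y * a⁻¹ * y⁻¹) := by
      rw [commutatorElement_def, hx, mul_inv_rev]
      calc a * z * y * (z⁻¹ * a⁻¹) * y⁻¹ = a * (z * y) * z⁻¹ * a⁻¹ * y⁻¹ := by group
        _ = a * (y * z) * z⁻¹ * a⁻¹ * y⁻¹ := by rw [hzc y]
        _ = a * (y * a⁻¹ * y⁻¹) := by group
    rw [h5]
    exact N.mul_mem ha (hN.conj_mem _ (N.inv_mem ha) y)

/-- **Quasisimple groups over simple groups of bounded even order** -/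
theorem good_bdd (M : ℕ) : ∃ C : ℝ, 6 ≤ C ∧ ∀ (Q : Type) [Group Q] [Finite Q], QO Q →
    Even (Nat.card (Q ⧸ Subgroup.center Q)) → Nat.card (Q ⧸ Subgroup.center Q) ≤ M → Good C Q := by
  obtain ⟨L, hL⟩ := exists_L (M ^ (M * (M * M) + 1))
  refine ⟨max 6 L, le_max_left _ _, ?_⟩
  intro Q _ _ hQ hev hM
  have := Fintype.ofFinite Q
  obtain ⟨k, hk, hmix⟩ := hL Q (card_bound hQ.1 hM) (mix_of_gen (gen_of_ts (ts_of_qo hQ hev)))
  refine ⟨k, hmix, ?_⟩
  have h1 : 2 ≤ Nat.card Q := by
    have h2 : Nat.card (Q ⧸ Subgroup.center Q) ∣ Nat.card Q := Subgroup.card_quotient_dvd_card _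
    have h3 : 0 < Nat.card Q := Nat.card_pos
    have h4 : 2 ∣ Nat.card Q := (even_iff_two_dvd.1 hev).trans h2
    exact Nat.le_of_dvd h3 h4
  have h5 : (1 : ℝ) ≤ Real.logb 2 (Nat.card Q) := by
    rw [Real.le_logb_iff_rpow_le (by norm_num) (by positivity), Real.rpow_one]
    exact_mod_cast h1
  have h6 : (k : ℝ) ≤ max 6 (L : ℝ) := le_max_of_le_right (by exact_mod_cast hk)
  have h7 : (0 : ℝ) ≤ max 6 (L : ℝ) := le_max_of_le_left (by norm_num)
  calc (k : ℝ) ≤ max 6 (L : ℝ) * 1 := by rw [mul_one]; exact h6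
    _ ≤ max 6 (L : ℝ) * Real.logb 2 (Nat.card Q) := mul_le_mul_of_nonneg_left h5 h7

theorem good_mono {C C' : ℝ} (h : C ≤ C') {Q : Type} [Group Q] [Finite Q] (hg : Good C Q) :
    Good C' Q := by
  obtain ⟨k, hk, hb⟩ := hg
  exact ⟨k, hk, hb.trans (mul_le_mul_of_nonneg_right h (logb_card_nonneg Q))⟩

/-- **Final theorem with factors of bounded order.** -/
theorem final_bdd (hPPBK : StPPBK) (M : ℕ) : ∃ C : ℝ, ∀ (G : Type) [Group G] [Finite G],
    (∀ H : Subgroup G, H.IsSubnormal → ∀ (N : Subgroup H) [N.Normal],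
      IsSimpleGroup (H ⧸ N) → (¬ ∀ a b : H ⧸ N, a * b = b * a) →
      AltPSL (H ⧸ N) ∨ (Even (Nat.card (H ⧸ N)) ∧ Nat.card (H ⧸ N) ≤ M)) →
    Mixable G → (mixlen G : ℝ) ≤ C * Real.logb 2 (Nat.card G) := by
  obtain ⟨C, hC, hgood⟩ := good_bdd M
  refine ⟨C, ?_⟩
  intro G _ _ h hG
  refine (finG C hC G (hypG_of_simple C
    (fun (S : Type) [Group S] => AltPSL S ∨ (Even (Nat.card S) ∧ Nat.card S ≤ M)) ?_ ?_ G h)
    (ts_of_mixable hG)).2
  · rintro Q _ _ hQ (hP | ⟨hev, hM⟩)
    · rcases hP with ⟨n, hn, hf⟩ | ⟨n, F, hF, hF', hn, hf⟩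
      · rcases pALT Q hQ ⟨n, hn, hf⟩ with h1 | h1
        · exact Or.inl h1
        · exact Or.inr (good_mono hC h1)
      · rcases Nat.lt_or_ge n 3 with h3 | h3
        · obtain rfl : n = 2 := by omega
          rcases hPSL2 F Q hQ hf with h1 | h1
          · exact Or.inl h1
          · exact Or.inr (good_mono hC h1)
        · exact Or.inr (good_mono hC (good_psl3 hPPBK n F h3 Q hQ hf))
    · exact Or.inr (hgood Q hQ hev hM)
  · rintro S S' _ _ ⟨e⟩ (hP | ⟨hev, hM⟩)
    · exact Or.inl (altPSL_iso S S' ⟨e⟩ hP)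
    · right
      rw [← Nat.card_congr e.toEquiv]
      exact ⟨hev, hM⟩

end Pool.Agent.Helper84.MXQ
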