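import Pool.Agent.Helper84.MXQ.Rank

/-!
# Mixable groups are exactly the finite groups without nontrivial quotient of odd order
-/

set_option autoImplicit false

namespace Pool.Agent.Helper84.MXQ

open Pool.Agent.Helper75.MX

/-- In a finite group without nontrivial quotient of odd order the 2-elements generate. -/
theorem gen_of_ts {G : Type} [Group G] [Finite G] (h : TS G) (H : Subgroup G)
    (hH : ∀ g : G, (∃ k : ℕ, g ^ (2 ^ k) = 1) → g ∈ H) : H = ⊤ := by
  classical
  have hp : Fact (Nat.Prime 2) := ⟨Nat.prime_two⟩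
  set s : Set G := {g | ∃ k : ℕ, g ^ (2 ^ k) = 1} with hs
  have h1 : Subgroup.normalClosure s ≤ H := by
    unfold Subgroup.normalClosure
    rw [Subgroup.closure_le]
    intro x hx
    obtain ⟨a, ⟨k, hk⟩, hax⟩ := Group.mem_conjugatesOfSet_iff.1 hx
    obtain ⟨c, rfl⟩ := isConj_iff.1 hax
    apply hH
    refine ⟨k, ?_⟩
    rw [conj_pow, hk]
    group
  obtain ⟨P⟩ : Nonempty (Sylow 2 G) := inferInstance
  have h2 : (P : Subgroup G) ≤ Subgroup.normalClosure s := by
    intro x hx
    apply Subgroup.subset_normalClosure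
    obtain ⟨k, hk⟩ := P.2 ⟨x, hx⟩
    exact ⟨k, by simpa using congrArg Subtype.val hk⟩
  have h3 : Odd (Subgroup.normalClosure s).index := by
    have h4 : ¬ 2 ∣ (P : Subgroup G).index := P.not_dvd_index
    have h5 : (Subgroup.normalClosure s).index ∣ (P : Subgroup G).index :=
      Subgroup.index_dvd_of_le h2
    rw [← Nat.not_even_iff_odd, even_iff_two_dvd]
    intro h6
    exact h4 (h6.trans h5)
  have h4 := h _ Subgroup.normalClosure_normal h3
  rw [h4] at h1
  exact top_le_iff.1 h1

/-- **Characterisation of mixable groups.** -/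
theorem mixable_iff (G : Type) [Group G] [Finite G] :
    Mixable G ↔ ∀ N : Subgroup G, N.Normal → Odd N.index → N = ⊤ := by
  have := Fintype.ofFinite G
  constructor
  · exact ts_of_mixable
  · intro h
    obtain ⟨k, hk⟩ := mix_of_gen (gen_of_ts h)
    obtain ⟨m, -, hm⟩ := exists_isMixing hk
    exact ⟨m, hm⟩

end Pool.Agent.Helper84.MXQ
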