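import Pool.Agent.Helper70.ML.All3
import Pool.Agent.Helper84.MXQ.Bdd

/-!
# Groups whose nonabelian composition factors are alternating, projective special linear or of bounded order
-/

set_option autoImplicit false

namespace Pool.Agent.Helper84.MXQ

open Pool.Agent.Helper75.MX Pool.Agent.Helper70.ML

theorem final_one : ∃ C : ℕ → ℝ, C 0 = 6 ∧ ∀ (M : ℕ) (G : Type) [Group G] [Finite G],
    (∀ H : Subgroup G, H.IsSubnormal → ∀ (N : Subgroup H) [N.Normal],
      IsSimpleGroup (H ⧸ N) → (¬ ∀ a b : H ⧸ N, a * b = b * a) →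
      AltPSL (H ⧸ N) ∨ (Even (Nat.card (H ⧸ N)) ∧ Nat.card (H ⧸ N) ≤ M)) →
    Mixable G → (mixlen G : ℝ) ≤ C M * Real.logb 2 (Nat.card G) := by
  classical
  choose c hc using final_bdd rPPBK
  refine ⟨fun M => if M = 0 then 6 else c M, if_pos rfl, ?_⟩
  intro M G _ _ h hG
  show (mixlen G : ℝ) ≤ (if M = 0 then 6 else c M) * Real.logb 2 (Nat.card G)
  by_cases hM : M = 0
  · rw [if_pos hM]
    refine (final_altPSL rPPBK Pool.Agent.Helper84.MXP.hPSL2 G ?_ (ts_of_mixable hG)).2
    intro H hH N hN hs hne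
    rcases h H hH N hs hne with h1 | ⟨-, h1⟩
    · exact h1
    · exfalso
      have h2 : 0 < Nat.card (H ⧸ N) := Nat.card_pos
      omega
  · rw [if_neg hM]
    exact hc M G h hG

end Pool.Agent.Helper84.MXQ
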