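import Pool.Agent.Helper75.MX.Final

/-!
# Elements near the identity are products of lazy elements (inverse function theorem)
-/

set_option autoImplicit false

namespace Pool.Agent.Helper84.MXQ

open Pool.Agent.Helper75.MX

variable {G : Type} [Group G]

/-- the product of the lazy steps with probabilities `p g` -/
noncomputable def Psi (gs : List G) (p : G → ℝ) : G → ℝ := app (gs.map fun g => (g, p g)) (dlt G)

theorem psi_cons (g : G) (gs : List G) (p : G → ℝ) (x : G) :
    Psi (g :: gs) p x = (1 - p g) * Psi gs p x + p g * Psi gs p (g⁻¹ * x) := by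
  unfold Psi
  rw [List.map_cons, app_cons]
  rfl

theorem psi_zero (gs : List G) : Psi gs (0 : G → ℝ) = dlt G := by
  induction gs with
  | nil => rfl
  | cons g gs ih =>
    funext x
    rw [psi_cons, ih]
    simp

variable [Fintype G]

theorem psi_deriv (gs : List G) : ∀ x : G, HasStrictFDerivAt (fun p : G → ℝ => Psi gs p x)
    ((gs.map fun g => (dlt G (g⁻¹ * x) - dlt G x) •
      (ContinuousLinearMap.proj g : (G → ℝ) →L[ℝ] ℝ)).sum) 0 := by
  induction gs with
  | nil =>
    intro x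
    simp only [List.map_nil, List.sum_nil]
    exact hasStrictFDerivAt_const _ _
  | cons g gs ih =>
    intro x
    have hp : HasStrictFDerivAt (fun p : G → ℝ => p g)
        (ContinuousLinearMap.proj g : (G → ℝ) →L[ℝ] ℝ) 0 :=
      (ContinuousLinearMap.proj g : (G → ℝ) →L[ℝ] ℝ).hasStrictFDerivAt
    have h1 := (((hasStrictFDerivAt_const (1 : ℝ) (0 : G → ℝ)).sub hp).mul (ih x)).add
      (hp.mul (ih (g⁻¹ * x)))
    have e : (fun p : G → ℝ => Psi (g :: gs) p x) =
        (fun p : G → ℝ => (1 - p g) * Psi gs p x + p g * Psi gs p (g⁻¹ * x)) := by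
      funext p
      exact psi_cons g gs p x
    rw [e]
    refine h1.congr_fderiv ?_
    ext v
    simp only [Pi.zero_apply, psi_zero, List.map_cons, List.sum_cons]
    simp
    ring

/-- the auxiliary map -/
noncomputable def Phi (p : G → ℝ) : G → ℝ := fun x =>
  Psi (Finset.univ.toList : List G) p x + dlt G x * (∑ g, p g) - dlt G x

theorem phi_deriv : HasStrictFDerivAt (Phi : (G → ℝ) → (G → ℝ))
    (ContinuousLinearMap.id ℝ (G → ℝ)) 0 := by
  classical
  rw [hasStrictFDerivAt_pi']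
  intro x
  have hs : HasStrictFDerivAt (fun p : G → ℝ => ∑ g, p g)
      (∑ g, (ContinuousLinearMap.proj g : (G → ℝ) →L[ℝ] ℝ)) 0 := by
    have := HasStrictFDerivAt.fun_sum (u := Finset.univ) (x := (0 : G → ℝ))
      (fun (g : G) _ => (ContinuousLinearMap.proj g : (G → ℝ) →L[ℝ] ℝ).hasStrictFDerivAt)
    exact this
  have h1 := ((psi_deriv (Finset.univ.toList : List G) x).add
    ((hasStrictFDerivAt_const (dlt G x) (0 : G → ℝ)).mul hs)).sub
    (hasStrictFDerivAt_const (dlt G x) (0 : G → ℝ))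
  refine h1.congr_fderiv ?_
  have e : ((Finset.univ.toList : List G).map fun g => (dlt G (g⁻¹ * x) - dlt G x) •
      (ContinuousLinearMap.proj g : (G → ℝ) →L[ℝ] ℝ)).sum =
      ∑ g : G, (dlt G (g⁻¹ * x) - dlt G x) • (ContinuousLinearMap.proj g : (G → ℝ) →L[ℝ] ℝ) := by
    rw [← Finset.sum_map_toList]
  rw [e]
  ext v
  have e2 : ∑ g : G, dlt G (g⁻¹ * x) * v g = v x := by
    rw [Finset.sum_eq_single x]
    · simp [dlt]
    · intro b _ hb
      have : b⁻¹ * x ≠ 1 := by
        intro h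
        exact hb (inv_mul_eq_one.1 h)
      simp [dlt, this]
    · intro h; exact absurd (Finset.mem_univ _) h
  simp [ContinuousLinearMap.sum_apply, sub_mul, Finset.sum_sub_distrib, e2, Finset.mul_sum]

theorem phi_zero : Phi (0 : G → ℝ) = 0 := by
  funext x
  simp [Phi, psi_zero]

/-- **Elements near the identity.** -/
theorem near : ∃ δ : ℝ, 0 < δ ∧ δ * (Nat.card G : ℝ) < 1 ∧ ∀ c : G → ℝ,
    (∀ x, |c x - δ| ≤ δ / 4) → ∃ p : G → ℝ, (∀ g, 0 ≤ p g ∧ p g ≤ 1) ∧
      ∀ x, x ≠ 1 → Psi (Finset.univ.toList : List G) p x = c x := by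
  classical
  obtain ⟨s, hs, happ⟩ := (phi_deriv (G := G)).approximates_deriv_on_nhds (c := 1 / 8)
    (Or.inr (by norm_num))
  obtain ⟨r, hr, hrs⟩ := Metric.nhds_basis_closedBall.mem_iff.1 hs
  have hcard : 0 < (Nat.card G : ℝ) := by exact_mod_cast Nat.card_pos
  obtain ⟨δ, hδ0, hδr, hδ1, hδc⟩ : ∃ δ : ℝ, 0 < δ ∧ 2 * δ ≤ r ∧ 2 * δ ≤ 1 ∧
      δ * (Nat.card G : ℝ) < 1 := by
    refine ⟨min (min (r / 2) (1 / 2)) (1 / (2 * Nat.card G)), by positivity, ?_, ?_, ?_⟩
    · have := (min_le_left (min (r / 2) (1 / 2)) (1 / (2 * (Nat.card G : ℝ)))).trans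
        (min_le_left _ _)
      linarith
    · have := (min_le_left (min (r / 2) (1 / 2)) (1 / (2 * (Nat.card G : ℝ)))).trans
        (min_le_right _ _)
      linarith
    · have := min_le_right (min (r / 2) (1 / 2)) (1 / (2 * (Nat.card G : ℝ)))
      calc _ ≤ 1 / (2 * (Nat.card G : ℝ)) * Nat.card G :=
            mul_le_mul_of_nonneg_right this hcard.le
        _ = 1 / 2 := by field_simp
        _ < 1 := by norm_num
  refine ⟨δ, hδ0, hδc, ?_⟩
  intro c hc
  set b : G → ℝ := fun _ => δ with hb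
  have hbn : ‖b‖ ≤ δ := by
    rw [pi_norm_le_iff_of_nonneg hδ0.le]
    intro g
    simp [hb, abs_of_pos hδ0]
  have hsub : Metric.closedBall b (δ / 2) ⊆ s := by
    refine Set.Subset.trans ?_ hrs
    intro p hp
    rw [Metric.mem_closedBall, dist_eq_norm] at hp ⊢
    calc ‖p - 0‖ = ‖(p - b) + b‖ := by rw [sub_add_cancel, sub_zero]
      _ ≤ ‖p - b‖ + ‖b‖ := norm_add_le _ _
      _ ≤ r := by linarith
  let R : (ContinuousLinearMap.id ℝ (G → ℝ)).NonlinearRightInverse :=
    { toFun := id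
      nnnorm := 1
      bound' := by intro y; simp
      right_inv' := by intro y; rfl }
  have hsurj := happ.surjOn_closedBall_of_nonlinearRightInverse R (ε := δ / 2) (b := b)
    (by linarith) hsub
  have hfb : ‖Phi b - b‖ ≤ δ / 8 := by
    have h0 : (0 : G → ℝ) ∈ s := mem_of_mem_nhds hs
    have hbs : b ∈ s := hsub (Metric.mem_closedBall_self (by linarith))
    have h1 := happ b hbs 0 h0
    rw [phi_zero] at h1
    simp only [sub_zero, ContinuousLinearMap.id_apply] at h1
    calc ‖Phi b - b‖ ≤ (1 / 8 : NNReal) * ‖b‖ := h1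
      _ ≤ (1 / 8) * δ := by
          push_cast
          exact mul_le_mul_of_nonneg_left hbn (by norm_num)
      _ = δ / 8 := by ring
  have hcb : ‖c - b‖ ≤ δ / 4 := by
    rw [pi_norm_le_iff_of_nonneg (by linarith)]
    intro g
    exact hc g
  have hmem : c ∈ Metric.closedBall (Phi b) (((R.nnnorm : ℝ)⁻¹ - (1 / 8 : NNReal)) * (δ / 2)) := by
    rw [Metric.mem_closedBall, dist_eq_norm]
    have e : ((R.nnnorm : ℝ)⁻¹ - ((1 / 8 : NNReal) : ℝ)) * (δ / 2) = 7 / 16 * δ := by
      have : (R.nnnorm : ℝ) = 1 := rfl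
      rw [this]
      push_cast
      ring
    rw [e]
    calc ‖c - Phi b‖ = ‖(c - b) - (Phi b - b)‖ := by congr 1; abel
      _ ≤ ‖c - b‖ + ‖Phi b - b‖ := norm_sub_le _ _
      _ ≤ 7 / 16 * δ := by linarith
  obtain ⟨p, hp, hpc⟩ := hsurj hmem
  refine ⟨p, ?_, ?_⟩
  · intro g
    rw [Metric.mem_closedBall, dist_eq_norm] at hp
    have h1 : |p g - δ| ≤ δ / 2 := by
      have := norm_le_pi_norm (p - b) g
      exact this.trans hp
    have h2 := abs_le.1 h1
    constructor <;> linarith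
  · intro x hx
    have h1 := congrFun hpc x
    have h2 : dlt G x = 0 := by simp [dlt, hx]
    simp only [Phi, h2, zero_mul, add_zero, sub_zero] at h1
    exact h1

end Pool.Agent.Helper84.MXQ
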