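import Pool.Agent.Helper84.MXQ.Alg
import Pool.Agent.Helper75.MX.Main

/-!
# Rank reduction; mixable groups
-/

set_option autoImplicit false

namespace Pool.Agent.Helper84.MXQ

open Pool.Agent.Helper75.MX

variable {G : Type} [Group G] [Fintype G]

/-- the image of the augmentation ideal -/
noncomputable def WW (x : RG G) : Submodule ℝ (RG G) :=
  (LinearMap.ker (au G).toLinearMap).map (LinearMap.mulLeft ℝ x)

theorem mem_WW {x z : RG G} : z ∈ WW x ↔ ∃ i : RG G, au G i = 0 ∧ x * i = z := by
  unfold WW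
  rw [Submodule.mem_map]
  constructor
  · rintro ⟨i, hi, h⟩
    exact ⟨i, LinearMap.mem_ker.1 hi, h⟩
  · rintro ⟨i, hi, h⟩
    exact ⟨i, LinearMap.mem_ker.2 hi, h⟩

/-- the left ideal of `z`, as a real vector space -/
noncomputable def cyc (z : RG G) : Submodule ℝ (RG G) := LinearMap.range (LinearMap.mulRight ℝ z)

theorem mem_cyc {z w : RG G} : w ∈ cyc z ↔ ∃ c : RG G, c * z = w := by
  unfold cyc
  rw [LinearMap.mem_range]
  rfl

instance finRG : Module.Finite ℝ (RG G) :=
  Module.Finite.equiv (MonoidAlgebra.coeffLinearEquiv ℝ (S := ℝ) (M := G)).symm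

/-- Maschke idempotents for principal left ideals -/
theorem idem (b : RG G) : ∃ f : RG G, (∃ c, f = c * b) ∧ b * f = b := by
  have hne : NeZero (Nat.card G : ℝ) := ⟨by exact_mod_cast Nat.card_pos.ne'⟩
  set J : Submodule (RG G) (RG G) := Submodule.span (RG G) {b} with hJ
  obtain ⟨J', hJJ⟩ := exists_isCompl J
  have h1 : (1 : RG G) ∈ J ⊔ J' := by rw [hJJ.sup_eq_top]; trivial
  obtain ⟨f, hf, f', hf', hff⟩ := Submodule.mem_sup.1 h1
  obtain ⟨c, hc⟩ := Submodule.mem_span_singleton.1 hf
  refine ⟨f, ⟨c, hc.symm⟩, ?_⟩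
  have hb : b ∈ J := Submodule.mem_span_singleton_self b
  have e : b - b * f = b * f' := by
    have h0 : b * f + b * f' = b := by rw [← mul_add, hff, mul_one]
    rw [sub_eq_iff_eq_add, add_comm]
    exact h0.symm
  have h2 : b * f' ∈ J := by
    rw [← e]
    exact J.sub_mem hb (J.smul_mem b hf)
  have h3 : b * f' ∈ J' := J'.smul_mem b hf'
  have h4 : b * f' = 0 := by
    have : b * f' ∈ J ⊓ J' := ⟨h2, h3⟩
    rw [hJJ.inf_eq_bot] at this
    exact (Submodule.mem_bot _).1 this
  rw [h4] at e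
  exact (sub_eq_zero.1 e).symm

/-- **Rank reduction.** -/
theorem step (hgen : ∀ H : Subgroup G, (∀ g : G, (∃ k : ℕ, g ^ (2 ^ k) = 1) → g ∈ H) → H = ⊤)
    (l : List (G × ℝ)) (ho : Ok l) (hW : WW (El l) ≠ ⊥) :
    ∃ l' : List (G × ℝ), Ok l' ∧
      Module.finrank ℝ (WW (El l')) < Module.finrank ℝ (WW (El l)) := by
  classical
  -- a minimal element
  obtain ⟨z, ⟨hzW, hz0⟩, hmin⟩ := (measure (fun z : RG G => Module.finrank ℝ (cyc z))).wf.has_min
    {z : RG G | z ∈ WW (El l) ∧ z ≠ 0} (by
      obtain ⟨z, hz, hz0⟩ := Submodule.exists_mem_ne_zero_of_ne_bot hW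
      exact ⟨z, hz, hz0⟩)
  have hmin' : ∀ w : RG G, w ∈ WW (El l) → w ≠ 0 →
      Module.finrank ℝ (cyc z) ≤ Module.finrank ℝ (cyc w) := by
    intro w hw hw0
    have := hmin w ⟨hw, hw0⟩
    exact not_lt.1 this
  obtain ⟨i0, hi0, hzi⟩ := mem_WW.1 hzW
  have hauz : au G z = 0 := by rw [← hzi, map_mul, hi0, mul_zero]
  -- a 2-element moving z
  obtain ⟨t, ⟨k, htk⟩, htz⟩ : ∃ t : G, (∃ k : ℕ, t ^ (2 ^ k) = 1) ∧ sg t * z ≠ z := by
    by_contra hall
    push Not at hall
    let H : Subgroup G :=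
      { carrier := {g | sg g * z = z}
        one_mem' := by
          show sg (1 : G) * z = z
          have : (sg (1 : G) : RG G) = 1 := rfl
          rw [this, one_mul]
        mul_mem' := by
          intro a b ha hb
          show sg (a * b) * z = z
          have e : (sg (a * b) : RG G) = sg a * sg b := by
            rw [MonoidAlgebra.single_mul_single, one_mul]
          have ha' : sg a * z = z := ha
          have hb' : sg b * z = z := hb
          rw [e, mul_assoc, hb', ha']
        inv_mem' := by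
          intro a ha
          have ha' : sg a * z = z := ha
          show sg a⁻¹ * z = z
          have e : (sg a⁻¹ * sg a : RG G) = 1 := by
            rw [MonoidAlgebra.single_mul_single, one_mul, inv_mul_cancel]
            rfl
          calc sg a⁻¹ * z = sg a⁻¹ * (sg a * z) := by rw [ha']
            _ = z := by rw [← mul_assoc, e, one_mul] }
    have hH : H = ⊤ := hgen H (fun g hg => hall g hg)
    apply hz0
    have h1 : Un G * z = z := by
      unfold Un
      rw [Finset.sum_mul]
      have h2 : ∀ g ∈ (Finset.univ : Finset G), ((1 / (Nat.card G : ℝ)) • sg g) * z =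
          (1 / (Nat.card G : ℝ)) • z := by
        intro g _
        have hg : g ∈ H := by rw [hH]; trivial
        have hg' : sg g * z = z := hg
        rw [smul_mul_assoc, hg']
      rw [Finset.sum_congr rfl h2, Finset.sum_const, Finset.card_univ, ← Nat.card_eq_fintype_card,
        ← Nat.cast_smul_eq_nsmul ℝ, smul_smul]
      have : (Nat.card G : ℝ) ≠ 0 := by exact_mod_cast Nat.card_pos.ne'
      rw [mul_one_div_cancel this, one_smul]
    rw [Un_mul, hauz, zero_smul] at h1
    exact h1.symm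
  -- the power s
  obtain ⟨s, hs1, hs2⟩ : ∃ s : G, sg s * z ≠ z ∧ sg s * (sg s * z) = z := by
    have hex : ∃ j : ℕ, sg (t ^ (2 ^ j)) * z = z := by
      refine ⟨k, ?_⟩
      rw [htk]
      exact one_mul z
    have h0 : Nat.find hex ≠ 0 := by
      intro h0
      have := Nat.find_spec hex
      rw [h0, pow_zero, pow_one] at this
      exact htz this
    obtain ⟨j, hj⟩ := Nat.exists_eq_succ_of_ne_zero h0
    refine ⟨t ^ (2 ^ j), ?_, ?_⟩
    · exact Nat.find_min hex (by omega)
    · have h1 := Nat.find_spec hex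
      rw [hj] at h1
      have e : (sg (t ^ (2 ^ j.succ)) : RG G) = sg (t ^ (2 ^ j)) * sg (t ^ (2 ^ j)) := by
        rw [MonoidAlgebra.single_mul_single, one_mul, ← pow_add, Nat.succ_eq_add_one, pow_succ,
          mul_two]
      rw [e, mul_assoc] at h1
      exact h1
  set S : RG G := sg s with hS
  set E1 : RG G := (1 / 2 : ℝ) • (1 + S) with hE1
  set E2 : RG G := (1 / 2 : ℝ) • (1 - S) with hE2
  set a : RG G := E1 * z with ha
  set b : RG G := E2 * z with hb
  have hab : a + b = z := by
    rw [ha, hb, ← add_mul, hE1, hE2, ← smul_add]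
    have : (1 + S + (1 - S) : RG G) = (2 : ℝ) • 1 := by
      rw [two_smul]; abel
    rw [this, smul_smul]
    norm_num
  have ea : a = (1 / 2 : ℝ) • (z + S * z) := by
    rw [ha, hE1, smul_mul_assoc, add_mul, one_mul]
  have eb : b = (1 / 2 : ℝ) • (z - S * z) := by
    rw [hb, hE2, smul_mul_assoc, sub_mul, one_mul]
  have hSa : S * a = a := by
    rw [ea, mul_smul_comm, mul_add, hs2, add_comm]
  have hSb : S * b = -b := by
    rw [eb, mul_smul_comm, mul_sub, hs2, ← smul_neg, neg_sub]
  have hb0 : b ≠ 0 := by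
    intro h
    rw [eb] at h
    have h1 : z - S * z = 0 := by
      rcases smul_eq_zero.1 h with h2 | h2
      · norm_num at h2
      · exact h2
    exact hs1 (sub_eq_zero.1 h1).symm
  have hE2b : E2 * b = b := by
    rw [hE2, smul_mul_assoc, sub_mul, one_mul, hSb, sub_neg_eq_add, ← two_smul ℝ b, smul_smul]
    norm_num
  have hE2a : E2 * a = 0 := by
    rw [hE2, smul_mul_assoc, sub_mul, one_mul, hSa, sub_self, smul_zero]
  have hE1b : E1 * b = 0 := by
    rw [hE1, smul_mul_assoc, add_mul, one_mul, hSb, add_neg_cancel, smul_zero]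
  -- the idempotent
  obtain ⟨f, ⟨cf, hcf⟩, hbf⟩ := idem b
  have hzf : z * f ∈ WW (El l) := mem_WW.2 ⟨i0 * f, by rw [map_mul, hi0, zero_mul], by
    rw [← hzi, mul_assoc]⟩
  have hzf0 : z * f ≠ 0 := by
    intro h
    apply hb0
    calc b = b * f := hbf.symm
      _ = E2 * (z * f) := by rw [hb, mul_assoc]
      _ = 0 := by rw [h, mul_zero]
  have hle1 : cyc (z * f) ≤ cyc b := by
    intro w hw
    obtain ⟨c, rfl⟩ := mem_cyc.1 hw
    exact mem_cyc.2 ⟨c * z * cf, by rw [mul_assoc, ← hcf]; simp only [mul_assoc]⟩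
  have hle2 : cyc b ≤ cyc z := by
    intro w hw
    obtain ⟨c, rfl⟩ := mem_cyc.1 hw
    exact mem_cyc.2 ⟨c * E2, by rw [hb]; simp only [mul_assoc]⟩
  have heq : cyc b = cyc z := by
    apply Submodule.eq_of_le_of_finrank_le hle2
    exact (hmin' _ hzf hzf0).trans (Submodule.finrank_mono hle1)
  obtain ⟨c, hc⟩ : ∃ c : RG G, c * b = a := by
    rw [← mem_cyc, heq]
    exact mem_cyc.2 ⟨E1, rfl⟩
  -- the element y
  set y : RG G := -(c * E2) with hy
  have hauE2 : au G E2 = 0 := by
    rw [hE2, map_smul, map_sub, map_one, hS, au_sg]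
    simp
  have hauy : au G y = 0 := by rw [hy, map_neg, map_mul, hauE2, mul_zero, neg_zero]
  have hyb : y * b = -a := by rw [hy, neg_mul, mul_assoc, hE2b, hc]
  have hya : y * a = 0 := by rw [hy, neg_mul, mul_assoc, hE2a, mul_zero, neg_zero]
  have haua : au G a = 0 := by rw [ha, map_mul, hauz, mul_zero]
  have haub : au G b = 0 := by rw [hb, map_mul, hauz, mul_zero]
  -- the list l1
  obtain ⟨κ, η, hκ0, hκ1, hη, hnear⟩ := nearE (G := G)
  obtain ⟨n, hn⟩ := exists_nat_gt ((∑ g, |y.coeff g|) / η)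
  have hsum0 : 0 ≤ ∑ g, |y.coeff g| := Finset.sum_nonneg (fun _ _ => abs_nonneg _)
  have hn0 : (0 : ℝ) < n := lt_of_le_of_lt (div_nonneg hsum0 hη.le) hn
  obtain ⟨l1, ho1, hl1⟩ := hnear ((1 / (n : ℝ)) • y) (by rw [map_smul, hauy, smul_zero]) (by
    intro g
    rw [MonoidAlgebra.coeff_smul, Finsupp.smul_apply, smul_eq_mul, abs_mul,
      abs_of_pos (by positivity : (0 : ℝ) < 1 / n)]
    have h1 : |y.coeff g| ≤ ∑ g, |y.coeff g| :=
      Finset.single_le_sum (f := fun g => |y.coeff g|) (fun _ _ => abs_nonneg _) (Finset.mem_univ g)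
    have h2 : (∑ g, |y.coeff g|) ≤ η * n := by
      rw [div_lt_iff₀ hη] at hn
      linarith
    rw [one_div, inv_mul_le_iff₀ hn0]
    linarith)
  have hact : ∀ w : RG G, au G w = 0 → El l1 * w = (1 - κ) • (w + (1 / (n : ℝ)) • (y * w)) := by
    intro w hw
    rw [hl1, add_mul, smul_mul_assoc, Un_mul, hw, zero_smul, smul_zero, zero_add, smul_mul_assoc,
      add_mul, one_mul, smul_mul_assoc]
  have hpow : ∀ m : ℕ, El l1 ^ m * z = ((1 - κ) ^ m) • ((1 - (m : ℝ) / n) • a + b) := by
    intro m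
    induction m with
    | zero =>
      rw [pow_zero, one_mul, pow_zero, one_smul, Nat.cast_zero, zero_div, sub_zero, one_smul, hab]
    | succ m ih =>
      rw [pow_succ', mul_assoc, ih, mul_smul_comm, hact]
      · rw [mul_add, mul_smul_comm, hya, hyb, smul_zero, zero_add, smul_smul, ← pow_succ]
        congr 1
        rw [smul_neg, add_right_comm, ← neg_smul, ← add_smul]
        congr 2
        push_cast
        field_simp
        ring
      · rw [map_add, map_smul, haua, haub, smul_zero, add_zero]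
  have hpown : El l1 ^ n * z = ((1 - κ) ^ n) • b := by
    rw [hpow, div_self hn0.ne', sub_self, zero_smul, zero_add]
  -- the new list
  let l2 : List (G × ℝ) := (List.replicate n l1).flatten
  have hEl2 : El l2 = El l1 ^ n := by
    show El ((List.replicate n l1).flatten) = El l1 ^ n
    generalize n = m
    induction m with
    | zero => rfl
    | succ m ih =>
      rw [List.replicate_succ, List.flatten_cons, El_append, ih, pow_succ']
  have hE1l : lzE (s, (1 / 2 : ℝ)) = E1 := by
    show (1 - (1 / 2 : ℝ)) • (1 : RG G) + (1 / 2 : ℝ) • sg s = E1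
    have h12 : (1 : ℝ) - 1 / 2 = 1 / 2 := by norm_num
    rw [h12, hE1, smul_add]
  refine ⟨(s, 1 / 2) :: (l2 ++ l), ?_, ?_⟩
  · intro a' ha'
    rcases List.mem_cons.1 ha' with rfl | h
    · norm_num
    · rcases List.mem_append.1 h with h | h
      · obtain ⟨m, hm, hm'⟩ := List.mem_flatten.1 h
        rw [List.eq_of_mem_replicate hm] at hm'
        exact ho1 _ hm'
      · exact ho _ h
  · set T : RG G := E1 * El l1 ^ n with hT
    have hTz : T * z = 0 := by
      rw [hT, mul_assoc, hpown, mul_smul_comm, hE1b, smul_zero]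
    have hEl' : El ((s, 1 / 2) :: (l2 ++ l)) = T * El l := by
      rw [El_cons, El_append, hE1l, hEl2, hT, mul_assoc]
    have hWW : WW (El ((s, 1 / 2) :: (l2 ++ l))) = (WW (El l)).map (LinearMap.mulLeft ℝ T) := by
      ext w
      rw [mem_WW, Submodule.mem_map]
      constructor
      · rintro ⟨i, hi, rfl⟩
        refine ⟨El l * i, mem_WW.2 ⟨i, hi, rfl⟩, ?_⟩
        rw [LinearMap.mulLeft_apply, hEl']
        exact (mul_assoc T (El l) i).symm
      · rintro ⟨v, hv, rfl⟩
        obtain ⟨i, hi, rfl⟩ := mem_WW.1 hv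
        refine ⟨i, hi, ?_⟩
        rw [LinearMap.mulLeft_apply, hEl']
        exact mul_assoc T (El l) i
    rw [hWW]
    set φ : WW (El l) →ₗ[ℝ] RG G := (LinearMap.mulLeft ℝ T).domRestrict (WW (El l)) with hφ
    have hr : LinearMap.range φ = (WW (El l)).map (LinearMap.mulLeft ℝ T) := by
      rw [hφ, LinearMap.range_domRestrict]
    have hk : 1 ≤ Module.finrank ℝ (LinearMap.ker φ) := by
      rw [Submodule.one_le_finrank_iff]
      intro hbot
      have h1 : (⟨z, hzW⟩ : WW (El l)) ∈ LinearMap.ker φ := by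
        rw [LinearMap.mem_ker]
        exact hTz
      rw [hbot, Submodule.mem_bot] at h1
      exact hz0 (congrArg Subtype.val h1)
    have hrn := LinearMap.finrank_range_add_finrank_ker φ
    rw [hr] at hrn
    omega

/-- If the 2-elements generate `G`, the uniform distribution is a product of lazy elements. -/
theorem mix_of_gen (hgen : ∀ H : Subgroup G, (∀ g : G, (∃ k : ℕ, g ^ (2 ^ k) = 1) → g ∈ H) → H = ⊤) :
    ∃ k, Mix G k := by
  have key : ∀ (n : ℕ) (l : List (G × ℝ)), Ok l → Module.finrank ℝ (WW (El l)) = n →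
      ∃ l' : List (G × ℝ), Ok l' ∧ WW (El l') = ⊥ := by
    intro n
    induction n using Nat.strong_induction_on with
    | _ n ih =>
    intro l ho hn
    by_cases hW : WW (El l) = ⊥
    · exact ⟨l, ho, hW⟩
    · obtain ⟨l', ho', hlt⟩ := step hgen l ho hW
      exact ih _ (hn ▸ hlt) l' ho' rfl
  obtain ⟨l, ho, hW⟩ := key _ [] (by intro a ha; simp at ha) rfl
  refine ⟨l.length, l, le_rfl, ho, ?_⟩
  have h1 : El l * (1 - Un G) = 0 := by
    have h2 : El l * (1 - Un G) ∈ WW (El l) :=
      mem_WW.2 ⟨1 - Un G, by rw [map_sub, map_one, au_Un, sub_self], rfl⟩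
    rw [hW] at h2
    exact (Submodule.mem_bot _).1 h2
  have h2 : El l = Un G := by
    rw [mul_sub, mul_one, mul_Un, au_El, one_smul] at h1
    exact sub_eq_zero.1 h1
  funext x
  rw [← El_coeff, h2, Un_coeff]
  rfl

end Pool.Agent.Helper84.MXQ
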